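import Pool.Agent.TH917.Br.Dom

set_option autoImplicit false

namespace Pool.Agent.TH917.Br

open SimpleGraph

universe u v
variable {V : Type u}

/-- a bundled well-order -/
structure WO (V : Type u) where
  r : V → V → Prop
  wo : IsWellOrder V r

section bfs
variable (G : SimpleGraph V) (v : V)

/-- neighbours one step closer to `v` -/
def down (x : V) : Set V := {w | G.Adj w x ∧ G.dist v w + 1 = G.dist v x}

open Classical in
/-- the least neighbour one step closer -/
noncomputable def fat (o : WO V) (x : V) : V :=
  if h : (down G v x).Nonempty then (WellFounded.min (@IsWellFounded.wf V o.r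
    (@IsWellOrder.toIsWellFounded V o.r o.wo)) (down G v x) h) else x

/-- the next breadth-first order -/
noncomputable def nxt (o : WO V) : WO V where
  r := fun x y => Prod.Lex o.r WellOrderingRel (fat G v o x, x) (fat G v o y, y)
  wo := by
    have := o.wo
    let e : V ↪ V × V := ⟨fun x => (fat G v o x, x), fun x y h => (Prod.mk.inj h).2⟩
    exact (RelEmbedding.preimage e (Prod.Lex o.r WellOrderingRel)).isWellOrder

/-- breadth-first orders, level by level -/
noncomputable def sq : ℕ → WO V
  | 0 => ⟨WellOrderingRel, inferInstance⟩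
  | n+1 => nxt G v (sq n)

variable {G v}

theorem fat_mem {o : WO V} {x : V} {n : ℕ} (h : G.dist v x = n + 1) :
    G.Adj (fat G v o x) x ∧ G.dist v (fat G v o x) = n := by
  obtain ⟨z, hz, hd⟩ := exists_pred h
  have hne : (down G v x).Nonempty := ⟨z, hz, by omega⟩
  have := WellFounded.min_mem (@IsWellFounded.wf V o.r
    (@IsWellOrder.toIsWellFounded V o.r o.wo)) (down G v x) hne
  rw [fat, dif_pos hne]
  refine ⟨this.1, ?_⟩
  have := this.2
  omega

theorem fat_min {o : WO V} {x y : V} (hy : y ∈ down G v x) : ¬ o.r y (fat G v o x) := by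
  have hne : (down G v x).Nonempty := ⟨y, hy⟩
  rw [fat, dif_pos hne]
  exact WellFounded.not_lt_min _ _ hy

theorem WO.tri (o : WO V) (a b : V) : o.r a b ∨ a = b ∨ o.r b a := by
  have := o.wo
  exact trichotomous_of o.r a b

theorem WO.trans (o : WO V) {a b c : V} (h1 : o.r a b) (h2 : o.r b c) : o.r a c := by
  have := o.wo
  exact trans_of o.r h1 h2

theorem sq_succ {n : ℕ} {x y : V} (h : (sq G v (n+1)).r x y) :
    (sq G v n).r (fat G v (sq G v n) x) (fat G v (sq G v n) y) ∨
      fat G v (sq G v n) x = fat G v (sq G v n) y := by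
  have h' : Prod.Lex (sq G v n).r WellOrderingRel (fat G v (sq G v n) x, x)
    (fat G v (sq G v n) y, y) := h
  rw [Prod.lex_def] at h'
  rcases h' with h | h
  · exact Or.inl h
  · exact Or.inr h.1

theorem dom_lemma (hc : G.Connected) (hno : NoIso G) :
    ∀ n x y, G.Adj x y → G.dist v x = n + 1 → G.dist v y = n + 1 → (sq G v (n+1)).r x y →
      G.Adj x (fat G v (sq G v n) y) := by
  intro n
  induction n with
  | zero =>
    intro x y _ hx hy _
    have h1 := fat_mem (o := sq G v 0) hx
    have h2 := fat_mem (o := sq G v 0) hy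
    have e1 : v = fat G v (sq G v 0) x := hc.dist_eq_zero_iff.mp h1.2
    have e2 : v = fat G v (sq G v 0) y := hc.dist_eq_zero_iff.mp h2.2
    rw [← e2, e1]; exact h1.1.symm
  | succ n ih =>
    intro x y hxy hx hy hr
    have h1 := fat_mem (o := sq G v (n+1)) hx
    have h2 := fat_mem (o := sq G v (n+1)) hy
    set fx := fat G v (sq G v (n+1)) x with hfx
    set fy := fat G v (sq G v (n+1)) y with hfy
    by_contra hcon
    have hTI := tc_inc hc hno
    have hN4 := n4_of_noIso hno
    have hN5 := n5_of_noIso hno
    rcases sq_succ hr with hlt | heq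
    swap
    · exact hcon (by rw [hfy, ← heq, ← hfx]; exact h1.1.symm)
    have nfxy : ¬ G.Adj fx y := by
      intro h
      exact fat_min (o := sq G v (n+1)) (x := y) (y := fx) ⟨h, by omega⟩ hlt
    have nxfy : x ≠ fy := by apply ne_of_dist_ne hc (v := v); omega
    have nfxy' : fx ≠ y := by apply ne_of_dist_ne hc (v := v); omega
    have nff : ¬ G.Adj fx fy := by
      intro h
      exact hN4 x fx fy y h1.1.symm h h2.1 hxy.symm nxfy nfxy' hcon nfxy
    have nffe : fx ≠ fy := by
      intro h
      exact hcon (h ▸ h1.1.symm)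
    obtain ⟨z, hzx, hzy, hz⟩ := (hTI (n+2)).1 v x y hxy hx hy
    have hz' : G.dist v z = n + 1 := by omega
    have zfx : z ≠ fx := by
      rintro h; exact nfxy (h ▸ hzy)
    have zfy : z ≠ fy := by
      rintro h; exact hcon (h ▸ hzx.symm)
    have azfx : G.Adj z fx := by
      rcases (hTI (n+1)).2 v x z fx hzx h1.1 hx hz' h1.2 with h | h
      · exact absurd h zfx
      · exact h
    have azfy : G.Adj z fy := by
      rcases (hTI (n+1)).2 v y z fy hzy h2.1 hy hz' h2.2 with h | h
      · exact absurd h zfy
      · exact h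
    have rx : (sq G v (n+1)).r fx z := by
      rcases (sq G v (n+1)).tri fx z with h | h | h
      · exact h
      · exact absurd h.symm zfx
      · exact absurd h (fat_min (o := sq G v (n+1)) (x := x) ⟨hzx, by omega⟩)
    have ry : (sq G v (n+1)).r fy z := by
      rcases (sq G v (n+1)).tri fy z with h | h | h
      · exact h
      · exact absurd h.symm zfy
      · exact absurd h (fat_min (o := sq G v (n+1)) (x := y) ⟨hzy, by omega⟩)
    have a1 := ih fx z azfx.symm h1.2 hz' rx
    have a2 := ih fy z azfy.symm h2.2 hz' ry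
    have h3 := fat_mem (o := sq G v n) hz'
    set g := fat G v (sq G v n) z with hg
    have nxg : ¬ G.Adj x g := fun h => by
      have := adj_dist_le hc h v; omega
    have nyg : ¬ G.Adj y g := fun h => by
      have := adj_dist_le hc h v; omega
    refine hN5 x fx g fy y h1.1.symm a1 a2.symm h2.1 hxy.symm ?_ nffe ?_ (Ne.symm nxfy)
      (Ne.symm nfxy') nxg nff (fun h => nyg h.symm) (fun h => hcon h.symm) (fun h => nfxy h.symm)
    · apply ne_of_dist_ne hc (v := v); omega
    · apply ne_of_dist_ne hc (v := v); omega

theorem exists_rmax (o : WO V) (L : Finset V) (hL : L.Nonempty) :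
    ∃ x ∈ L, ∀ y ∈ L, y ≠ x → o.r y x := by
  classical
  induction hL using Finset.Nonempty.cons_induction with
  | singleton a => exact ⟨a, by simp, by simp⟩
  | cons a s ha hs ih =>
    obtain ⟨x, hx, hmax⟩ := ih
    rcases o.tri a x with h | h | h
    · refine ⟨x, by simp [hx], ?_⟩
      intro y hy hne
      rw [Finset.mem_cons] at hy
      rcases hy with rfl | hy
      · exact h
      · exact hmax y hy hne
    · subst h
      exact absurd hx ha
    · refine ⟨a, by simp, ?_⟩
      intro y hy hne
      rw [Finset.mem_cons] at hy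
      rcases hy with rfl | hy
      · exact absurd rfl hne
      · by_cases hyx : y = x
        · subst hyx; exact h
        · exact o.trans (hmax y hy hyx) h

/-- closed under taking breadth-first parents -/
def Closed (G : SimpleGraph V) (v : V) (T : Finset V) : Prop :=
  ∀ x ∈ T, ∀ n, G.dist v x = n + 1 → fat G v (sq G v n) x ∈ T

theorem closed_good (hc : G.Connected) (hno : NoIso G) :
    ∀ (c : ℕ) (T : Finset V), T.card = c → v ∈ T → Closed G v T →
      (G.induce (T : Set V)).Connected ∧ NoIso (G.induce (T : Set V)) := by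
  classical
  intro c
  induction c with
  | zero =>
    intro T hT hv
    rw [Finset.card_eq_zero] at hT
    subst hT
    simp at hv
  | succ c ih =>
    intro T hT hv hcl
    obtain ⟨x0, hx0, hmax0⟩ := T.exists_max_image (fun y => G.dist v y) ⟨v, hv⟩
    rcases Nat.eq_zero_or_pos (G.dist v x0) with h0 | hpos
    · have hall : ∀ y ∈ T, y = v := by
        intro y hy
        have := hmax0 y hy
        exact (hc.dist_eq_zero_iff.mp (by omega : G.dist v y = 0)).symm
      have hsub : ∀ a b : (T : Set V), a = b := by
        intro a b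
        exact Subtype.ext ((hall a.1 a.2).trans (hall b.1 b.2).symm)
      constructor
      · have : Nonempty (T : Set V) := ⟨⟨v, hv⟩⟩
        exact Connected.mk (fun a b => by rw [hsub a b])
      · intro k f hk hf
        have := hf.2.1 0 (by omega)
        rw [hsub (f 0) (f (0+1))] at this
        exact this.ne rfl
    · obtain ⟨n, hn⟩ : ∃ n, G.dist v x0 = n + 1 := ⟨G.dist v x0 - 1, by omega⟩
      set L := T.filter (fun y => G.dist v y = n + 1) with hL
      obtain ⟨x, hxL, hxmax⟩ := exists_rmax (sq G v (n+1)) L
        ⟨x0, by rw [hL, Finset.mem_filter]; exact ⟨hx0, hn⟩⟩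
      rw [hL, Finset.mem_filter] at hxL
      obtain ⟨hxT, hxd⟩ := hxL
      have hlev : ∀ y ∈ T, G.dist v y ≤ n + 1 := fun y hy => by
        have := hmax0 y hy
        omega
      have hf := fat_mem (o := sq G v n) hxd
      set w := fat G v (sq G v n) x with hw
      have hwT : w ∈ T := hcl x hxT n hxd
      have hwx : w ≠ x := hf.1.ne
      have hTI := tc_inc hc hno
      have hvx : v ≠ x := by
        rintro rfl
        simp at hxd
      have hcl' : Closed G v (T.erase x) := by
        intro y hy m hm
        rw [Finset.mem_erase] at hy ⊢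
        refine ⟨?_, hcl y hy.2 m hm⟩
        have h1 := fat_mem (o := sq G v m) hm
        have h2 := hlev y hy.2
        apply ne_of_dist_ne hc (v := v)
        omega
      obtain ⟨c1, c2⟩ := ih (T.erase x) (by rw [Finset.card_erase_of_mem hxT]; omega)
        (Finset.mem_erase.mpr ⟨hvx, hv⟩) hcl'
      have hTeq : (T : Set V) = insert x ((T.erase x : Finset V) : Set V) := by
        ext y
        simp only [Finset.mem_coe, Set.mem_insert_iff, Finset.mem_erase]
        constructor
        · intro h
          by_cases hyx : y = x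
          · exact Or.inl hyx
          · exact Or.inr ⟨hyx, h⟩
        · rintro (h | h)
          · rw [h]; exact hxT
          · exact h.2
      have hxA : x ∉ ((T.erase x : Finset V) : Set V) := by simp
      have hwA : w ∈ ((T.erase x : Finset V) : Set V) := by
        simp only [Finset.mem_coe, Finset.mem_erase]; exact ⟨hwx, hwT⟩
      have hdom : ∀ y ∈ ((T.erase x : Finset V) : Set V), G.Adj x y → y = w ∨ G.Adj w y := by
        intro y hy hxy
        simp only [Finset.mem_coe, Finset.mem_erase] at hy
        have l1 := hlev y hy.2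
        have l2 := adj_dist_le hc hxy v
        rcases Nat.lt_or_ge (G.dist v y) (n+1) with h | h
        · rcases (hTI n).2 v x y w hxy.symm hf.1 hxd (by omega) hf.2 with g | g
          · exact Or.inl g
          · exact Or.inr g.symm
        · have hy' : G.dist v y = n + 1 := by omega
          have hr := hxmax y (by rw [hL, Finset.mem_filter]; exact ⟨hy.2, hy'⟩) hy.1
          exact Or.inr (dom_lemma hc hno n y x hxy.symm hy' hxd hr).symm
      rw [hTeq]
      exact ⟨dom_connected hwA hf.1.symm c1,
        dom_step hxA hwA hf.1.symm hdom (n4_of_noIso hno) (n5_of_noIso hno) c1 c2⟩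

theorem exists_closed_one (hc : G.Connected) : ∀ (n : ℕ) (x : V), G.dist v x = n →
    ∃ T : Finset V, x ∈ T ∧ v ∈ T ∧ Closed G v T := by
  classical
  intro n
  induction n with
  | zero =>
    intro x hx
    have : v = x := hc.dist_eq_zero_iff.mp hx
    subst this
    refine ⟨{v}, by simp, by simp, ?_⟩
    intro y hy m hm
    rw [Finset.mem_singleton] at hy
    subst hy
    simp at hm
  | succ n ih =>
    intro x hx
    have hf := fat_mem (o := sq G v n) hx
    obtain ⟨T, h1, h2, h3⟩ := ih _ hf.2
    refine ⟨insert x T, by simp, by simp [h2], ?_⟩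
    intro y hy m hm
    rw [Finset.mem_insert] at hy
    rcases hy with rfl | hy
    · have : m = n := by omega
      subst this
      exact Finset.mem_insert_of_mem h1
    · exact Finset.mem_insert_of_mem (h3 y hy m hm)

theorem exists_closed (hc : G.Connected) (S : Finset V) :
    ∃ T : Finset V, S ⊆ T ∧ v ∈ T ∧ Closed G v T := by
  classical
  induction S using Finset.induction_on with
  | empty =>
    obtain ⟨T, -, h2, h3⟩ := exists_closed_one (v := v) hc 0 v (by simp)
    exact ⟨T, by simp, h2, h3⟩
  | insert a s _ ih =>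
    obtain ⟨T, h1, h2, h3⟩ := ih
    obtain ⟨T', h1', h2', h3'⟩ := exists_closed_one (v := v) hc _ a rfl
    refine ⟨T ∪ T', ?_, by simp [h2], ?_⟩
    · intro y hy
      rw [Finset.mem_insert] at hy
      rcases hy with rfl | hy
      · exact Finset.mem_union_right _ h1'
      · exact Finset.mem_union_left _ (h1 hy)
    · intro y hy m hm
      rw [Finset.mem_union] at hy ⊢
      rcases hy with hy | hy
      · exact Or.inl (h3 y hy m hm)
      · exact Or.inr (h3' y hy m hm)

end bfs

/-- connected case -/
theorem connected_case {G : SimpleGraph V} (hc : G.Connected) (hno : NoIso G) (S : Finset V) :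
    ∃ T : Finset V, S ⊆ T ∧ NoIso (G.induce (T : Set V)) := by
  obtain ⟨v⟩ := hc.nonempty
  obtain ⟨T, h1, h2, h3⟩ := exists_closed (v := v) hc S
  exact ⟨T, h1, (closed_good hc hno _ T rfl h2 h3).2⟩

theorem reach_seq {G : SimpleGraph V} {f : ℕ → V} {k : ℕ} (h : ∀ i < k, G.Adj (f i) (f (i+1))) :
    ∀ i ≤ k, G.Reachable (f 0) (f i) := by
  intro i hi
  exact ⟨walkOf G f i (fun t ht => h t (by omega))⟩

/-- general transfer of isometric cyclic sequences along a map -/
theorem transfer {W : Type v} {G : SimpleGraph V} {H : SimpleGraph W} {k : ℕ} {f : ℕ → V}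
    {g : ℕ → W} (φ : W → V) (hφ : ∀ a b, H.Adj a b → φ a = φ b ∨ G.Adj (φ a) (φ b))
    (hf : IsoCyc G k f) (hg : ∀ i ≤ k, φ (g i) = f i) (hadj : ∀ i < k, H.Adj (g i) (g (i+1)))
    (hk : g k = g 0) : IsoCyc H k g := by
  refine ⟨hk, hadj, ?_⟩
  intro i j hij hj
  have hr : H.Reachable (g i) (g j) :=
    (reach_seq hadj i (by omega)).symm.trans (reach_seq hadj j (by omega))
  have := (weak_dist φ hφ hr).2
  rw [hg i (by omega), hg j (by omega)] at this
  exact (hf.2.2 i j hij hj).trans this

open Classical in
theorem component_case {G : SimpleGraph V} (hno : NoIso G) (v : V) (S : Finset V) :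
    ∃ T : Finset V, (∀ x ∈ S, G.Reachable v x → x ∈ T) ∧ (∀ x ∈ T, G.Reachable v x) ∧
      NoIso (G.induce (T : Set V)) := by
  set K : Set V := {x | G.Reachable v x} with hK
  have hvK : v ∈ K := by rw [hK]; exact Reachable.refl v
  -- retraction
  let ρ : V → K := fun x => if h : x ∈ K then ⟨x, h⟩ else ⟨v, hvK⟩
  have hρ : ∀ a b, G.Adj a b → ρ a = ρ b ∨ (G.induce K).Adj (ρ a) (ρ b) := by
    intro a b hab
    by_cases ha : a ∈ K
    · have hb : b ∈ K := by
        have : G.Reachable v a := ha
        exact this.trans hab.reachable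
      right
      simp only [ρ, dif_pos ha, dif_pos hb]
      exact hab
    · have hb : b ∉ K := by
        intro hb
        have : G.Reachable v b := hb
        exact ha (this.trans hab.symm.reachable)
      left
      simp only [ρ, dif_neg ha, dif_neg hb]
  have hcK : (G.induce K).Connected := by
    have : Nonempty K := ⟨⟨v, hvK⟩⟩
    have hb : ∀ x : K, (G.induce K).Reachable (⟨v, hvK⟩ : K) x := by
      intro x
      have h1 : G.Reachable v x.1 := x.2
      have := (weak_dist ρ hρ h1).1
      simpa [ρ, hvK] using this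
    exact Connected.mk (fun x y => (hb x).symm.trans (hb y))
  have hnoK : NoIso (G.induce K) := by
    intro k f hk hf
    refine hno k (fun i => (f i).1) hk ?_
    refine transfer (G := G.induce K) (H := G) ρ hρ hf ?_ (fun i hi => hf.2.1 i hi) ?_
    · intro i _
      simp only [ρ, dif_pos (f i).2]
    · simp only [hf.1]
  obtain ⟨T', hT', hnoT'⟩ := connected_case hcK hnoK ((S.filter (fun x => x ∈ K)).subtype (fun x => x ∈ K))
  refine ⟨T'.map (Function.Embedding.subtype _), ?_, ?_, ?_⟩
  · intro x hx hr
    rw [Finset.mem_map]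
    refine ⟨⟨x, hr⟩, hT' ?_, rfl⟩
    rw [Finset.mem_subtype, Finset.mem_filter]
    exact ⟨hx, hr⟩
  · intro x hx
    rw [Finset.mem_map] at hx
    obtain ⟨y, _, rfl⟩ := hx
    exact y.2
  · intro k f hk hf
    have hm : ∀ x : ((T'.map (Function.Embedding.subtype _) : Finset V) : Set V),
        ∃ y : (T' : Set K), y.1.1 = x.1 := by
      intro x
      have := x.2
      rw [Finset.mem_coe, Finset.mem_map] at this
      obtain ⟨y, hy, he⟩ := this
      exact ⟨⟨y, hy⟩, he⟩
    choose σ hσ using hm
    refine hnoT' k (fun i => σ (f i)) hk ?_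
    let φ : ↥(T' : Set ↥K) → ((T'.map (Function.Embedding.subtype _) : Finset V) : Set V) :=
      fun y => ⟨y.1.1, by
        rw [Finset.mem_coe, Finset.mem_map]
        exact ⟨y.1, y.2, rfl⟩⟩
    refine transfer (G := G.induce ((T'.map (Function.Embedding.subtype _) : Finset V) : Set V))
      (H := (G.induce K).induce (T' : Set K)) φ ?_ hf ?_ ?_ ?_
    · intro a b hab
      right
      exact hab
    · intro i _
      exact Subtype.ext (hσ (f i))
    · intro i hi
      change G.Adj (σ (f i)).1.1 (σ (f (i+1))).1.1
      rw [hσ, hσ]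
      exact hf.2.1 i hi
    · simp only [hf.1]

open Classical in
theorem main {G : SimpleGraph V} (hno : NoIso G) (S : Finset V) :
    ∃ T : Finset V, S ⊆ T ∧ NoIso (G.induce (T : Set V)) := by
  choose Tf h1 h2 h3 using fun v => component_case hno v S
  let rep : V → V := fun x => Quot.out (G.connectedComponentMk x)
  have hrep : ∀ x, G.Reachable (rep x) x := by
    intro x
    have : G.connectedComponentMk (rep x) = G.connectedComponentMk x := Quot.out_eq _
    exact ConnectedComponent.exact this
  have hrep2 : ∀ x y, G.Reachable x y → rep x = rep y := by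
    intro x y h
    simp only [rep]
    rw [ConnectedComponent.sound h]
  obtain ⟨T, hT⟩ : ∃ T, T = (S.image rep).biUnion Tf := ⟨_, rfl⟩
  refine ⟨T, ?_, ?_⟩
  · intro x hx
    rw [hT, Finset.mem_biUnion]
    exact ⟨rep x, Finset.mem_image_of_mem rep hx, h1 _ x hx (hrep x)⟩
  · intro k f hk hf
    have hmem : ∀ x ∈ T, x ∈ Tf (rep x) := by
      intro x hx
      rw [hT, Finset.mem_biUnion] at hx
      obtain ⟨r, hr, hxr⟩ := hx
      rw [Finset.mem_image] at hr
      obtain ⟨s, _, rfl⟩ := hr
      have a1 := h2 _ x hxr
      have a2 : G.Reachable s x := (hrep s).symm.trans a1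
      rw [← hrep2 s x a2]
      exact hxr
    have hreach : ∀ i ≤ k, G.Reachable (f 0).1 (f i).1 := by
      intro i hi
      have := reach_seq (G := G) (f := fun i => (f i).1) (k := k) (fun i hi => hf.2.1 i hi) i hi
      exact this
    have hin : ∀ i ≤ k, (f i).1 ∈ Tf (rep (f 0).1) := by
      intro i hi
      rw [hrep2 _ _ (hreach i hi)]
      exact hmem _ (f i).2
    set r := rep (f 0).1 with hr
    let g : ℕ → (Tf r : Set V) := fun i => if h : (f i).1 ∈ Tf r then ⟨(f i).1, h⟩
      else ⟨(f 0).1, hin 0 (by omega)⟩
    have hg : ∀ i ≤ k, (g i).1 = (f i).1 := by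
      intro i hi
      simp only [g, dif_pos (hin i hi)]
    have hrT : ∀ y ∈ Tf r, y ∈ T := by
      intro y hy
      rw [hT, Finset.mem_biUnion]
      refine ⟨r, ?_, hy⟩
      have this : (f 0).1 ∈ T := (f 0).2
      have this2 : ∀ x ∈ T, ∃ r' ∈ S.image rep, x ∈ Tf r' := by
        intro x hx
        rwa [hT, Finset.mem_biUnion] at hx
      obtain ⟨r', hr', hxr'⟩ := this2 _ this
      rw [Finset.mem_image] at hr' ⊢
      obtain ⟨s, hs, rfl⟩ := hr'
      refine ⟨s, hs, ?_⟩
      rw [hr]
      exact hrep2 _ _ ((hrep s).symm.trans (h2 _ _ hxr'))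
    refine h3 r k g hk ?_
    refine transfer (G := G.induce (T : Set V)) (H := G.induce (Tf r : Set V))
      (fun y => ⟨y.1, hrT y.1 y.2⟩) ?_ hf ?_ ?_ ?_
    · intro a b hab
      right; exact hab
    · intro i hi
      exact Subtype.ext (hg i hi)
    · intro i hi
      change G.Adj (g i).1 (g (i+1)).1
      rw [hg i (by omega), hg (i+1) (by omega)]
      exact hf.2.1 i hi
    · apply Subtype.ext
      rw [hg k le_rfl, hg 0 (by omega), hf.1]

end Pool.Agent.TH917.Br
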