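import Mathlib

set_option autoImplicit false

namespace Pool.Agent.TH917.Br

open SimpleGraph

universe u
variable {V : Type u} {W : Type u}

/-- an isometric cyclic sequence of length `k` -/
def IsoCyc (G : SimpleGraph V) (k : ℕ) (f : ℕ → V) : Prop :=
  f k = f 0 ∧ (∀ i < k, G.Adj (f i) (f (i+1))) ∧
    ∀ i j, i ≤ j → j < k → min (j-i) (k-(j-i)) ≤ G.dist (f i) (f j)

/-- no isometric cyclic sequence of length at least four -/
def NoIso (G : SimpleGraph V) : Prop := ∀ k f, 4 ≤ k → ¬ IsoCyc G k f

/-- the frozen formulation of bridgedness -/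
def Bridged (G : SimpleGraph V) : Prop :=
  ∀ (u : V) (c : G.Walk u u), c.IsCycle → 4 ≤ c.length →
        ∃ i j : ℕ, i ≤ j ∧ j < c.length ∧
          G.dist (c.getVert i) (c.getVert j) < min (j - i) (c.length - (j - i))

theorem bridged_of_noIso {G : SimpleGraph V} (h : NoIso G) : Bridged G := by
  intro u c _ hl
  by_contra hcon
  push Not at hcon
  refine h c.length c.getVert hl ⟨?_, ?_, ?_⟩
  · simp
  · intro i hi; exact c.adj_getVert_succ hi
  · intro i j hij hj; exact hcon i j hij hj

/-- walk from a sequence -/
def walkOf (G : SimpleGraph V) (f : ℕ → V) :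
    ∀ n, (∀ i < n, G.Adj (f i) (f (i+1))) → G.Walk (f 0) (f n)
  | 0, _ => Walk.nil
  | n+1, h => (walkOf G f n (fun i hi => h i (by omega))).concat (h n (by omega))

theorem walkOf_length (G : SimpleGraph V) (f : ℕ → V) :
    ∀ n h, (walkOf G f n h).length = n
  | 0, _ => rfl
  | n+1, h => by
    simp [walkOf, Walk.length_concat, walkOf_length G f n]

theorem walkOf_getVert (G : SimpleGraph V) (f : ℕ → V) :
    ∀ n h i, i ≤ n → (walkOf G f n h).getVert i = f i
  | 0, _, i, hi => by
    have : i = 0 := by omega
    subst this; simp [walkOf]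
  | n+1, h, i, hi => by
    rw [walkOf, Walk.concat_eq_append, Walk.getVert_append, walkOf_length]
    by_cases h1 : i < n
    · rw [if_pos h1]
      exact walkOf_getVert G f n _ i (by omega)
    · rw [if_neg h1]
      have h2 : i = n ∨ i = n + 1 := by omega
      rcases h2 with h2 | h2
      · subst h2
        simp
      · subst h2
        simp

theorem dist_le_seq {G : SimpleGraph V} {f : ℕ → V} {a n : ℕ}
    (h : ∀ i, a ≤ i → i < a + n → G.Adj (f i) (f (i+1))) : G.dist (f a) (f (a+n)) ≤ n := by
  have h' : ∀ i < n, G.Adj (f (a+i)) (f (a+(i+1))) := by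
    intro i hi
    have := h (a+i) (by omega) (by omega)
    simpa [add_assoc] using this
  have := dist_le (walkOf G (fun i => f (a+i)) n h')
  rw [walkOf_length] at this
  simpa using this

theorem noIso_of_bridged {G : SimpleGraph V} (h : Bridged G) : NoIso G := by
  intro k f hk ⟨hf0, hadj, hd⟩
  let c : G.Walk (f 0) (f 0) := (walkOf G f k hadj).copy rfl hf0
  have hlen : c.length = k := by simp [c, walkOf_length]
  have hget : ∀ i ≤ k, c.getVert i = f i := by
    intro i hi
    simp only [c, Walk.getVert_copy]
    exact walkOf_getVert G f k hadj i hi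
  have hinj : ∀ i j, i < j → j < k → f i ≠ f j := by
    intro i j hij hj heq
    have := hd i j hij.le hj
    rw [heq, dist_self] at this
    have h1 : 0 < min (j-i) (k-(j-i)) := by
      apply lt_min <;> omega
    omega
  have hcyc : c.IsCycle := by
    rw [Walk.isCycle_iff_isPath_tail_and_le_length]
    refine ⟨?_, by omega⟩
    rw [← Walk.IsPath.getVert_injOn_iff]
    have htl : c.tail.length + 1 = c.length := Walk.length_tail_add_one (by
      intro hnil
      have := Walk.length_eq_zero_iff.mpr hnil
      omega)
    intro i hi j hj hij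
    change i ≤ _ at hi; change j ≤ _ at hj
    simp only [Walk.getVert_tail] at hij
    rw [hget _ (by omega), hget _ (by omega)] at hij
    rcases Nat.lt_trichotomy i j with hlt | heq | hlt
    · exfalso
      by_cases hjk : j + 1 = k
      · rw [hjk, hf0] at hij
        exact hinj 0 (i+1) (by omega) (by omega) hij.symm
      · exact hinj (i+1) (j+1) (by omega) (by omega) hij
    · exact heq
    · exfalso
      by_cases hik : i + 1 = k
      · rw [hik, hf0] at hij
        exact hinj 0 (j+1) (by omega) (by omega) hij
      · exact hinj (j+1) (i+1) (by omega) (by omega) hij.symm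
  obtain ⟨i, j, hij, hj, hlt⟩ := h (f 0) c hcyc (by omega)
  rw [hlen] at hj hlt
  rw [hget i (by omega), hget j (by omega)] at hlt
  have := hd i j hij hj
  omega

theorem IsoCyc.dist_eq {G : SimpleGraph V} {k : ℕ} {f : ℕ → V} (h : IsoCyc G k f)
    {i j : ℕ} (hij : i ≤ j) (hj : j < k) : G.dist (f i) (f j) = min (j-i) (k-(j-i)) := by
  obtain ⟨hf0, hadj, hd⟩ := h
  apply le_antisymm _ (hd i j hij hj)
  apply le_min
  · have := dist_le_seq (G := G) (f := f) (a := i) (n := j - i)
      (fun t _ ht => hadj t (by omega))
    rwa [Nat.add_sub_cancel' hij] at this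
  · have h1 := dist_le (walkOf G f i (fun t ht => hadj t (by omega)))
    rw [walkOf_length] at h1
    have w2 : G.Walk (f j) (f k) := by
      have := walkOf G (fun t => f (j+t)) (k-j) (fun t ht => by
        have := hadj (j+t) (by omega)
        simpa [add_assoc] using this)
      simpa [Nat.add_sub_cancel' hj.le] using this
    have w1 := walkOf G f i (fun t ht => hadj t (by omega))
    let p1 := walkOf G f i (fun t ht => hadj t (by omega))
    let p2 := walkOf G (fun t => f (j+t)) (k-j) (fun t ht => by
        have := hadj (j+t) (by omega)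
        simpa [add_assoc] using this)
    have e0 : f (j + 0) = f j := by simp
    have ek : f (j + (k-j)) = f 0 := by rw [Nat.add_sub_cancel' hj.le, hf0]
    have := dist_le ((p2.copy e0 ek).append p1)
    rw [Walk.length_append, Walk.length_copy, walkOf_length, walkOf_length, dist_comm] at this
    omega

/-- In a connected graph, distance one more: predecessor on a geodesic. -/
theorem exists_pred {G : SimpleGraph V} {a b : V} {n : ℕ} (h : G.dist a b = n + 1) :
    ∃ z, G.Adj z b ∧ G.dist a z = n := by
  have hr : G.Reachable a b := Reachable.of_dist_ne_zero (by omega)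
  obtain ⟨p, hp⟩ := hr.exists_walk_length_eq_dist
  have hpl : p.length = n + 1 := by omega
  have hadj : G.Adj (p.getVert n) (p.getVert (n+1)) := p.adj_getVert_succ (by omega)
  have hb : p.getVert (n+1) = b := by rw [← hpl]; exact p.getVert_length
  rw [hb] at hadj
  refine ⟨p.getVert n, hadj, ?_⟩
  have h1 : G.dist a (p.getVert n) ≤ n := by
    have := dist_le (p.take n)
    have h2 : (p.take n).length ≤ n := by
      simp
    omega
  have h3 : G.dist a b ≤ G.dist a (p.getVert n) + G.dist (p.getVert n) b :=
    Reachable.dist_triangle_left ⟨p.take n⟩ b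
  have h4 : G.dist (p.getVert n) b = 1 := dist_eq_one_iff_adj.mpr hadj
  omega

/-- existence of a geodesic as a sequence, in a connected graph -/
theorem exists_geod {G : SimpleGraph V} (hc : G.Connected) : ∀ (n : ℕ) (a b : V),
    G.dist a b = n → ∃ P : ℕ → V, P 0 = a ∧ P n = b ∧
      (∀ i j, i ≤ j → j ≤ n → G.dist (P i) (P j) = j - i)
  | 0, a, b, h => by
    have hab : a = b := hc.dist_eq_zero_iff.mp h
    refine ⟨fun _ => a, rfl, hab, ?_⟩
    intro i j hij hj
    simp; omega
  | n+1, a, b, h => by
    obtain ⟨z, hz, hd⟩ := exists_pred h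
    obtain ⟨P, h0, hn, hP⟩ := exists_geod hc n a z hd
    refine ⟨fun i => if i ≤ n then P i else b, ?_, ?_, ?_⟩
    · simp [h0]
    · simp
    · intro i j hij hj
      by_cases h1 : j ≤ n
      · simp only [show i ≤ n by omega, h1, if_true]
        exact hP i j hij h1
      · have hjn : j = n+1 := by omega
        subst hjn
        by_cases h2 : i ≤ n
        · simp only [h2, if_true, h1, if_false]
          have t1 := hc.dist_triangle (u := P i) (v := z) (w := b)
          have t2 := hc.dist_triangle (u := a) (v := P i) (w := b)
          have e1 := hP i n h2 le_rfl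
          have e2 := hP 0 i (by omega) h2
          rw [hn] at e1
          rw [h0] at e2
          have e3 : G.dist z b = 1 := dist_eq_one_iff_adj.mpr hz
          omega
        · have : i = n + 1 := by omega
          subst this
          simp

end Pool.Agent.TH917.Br
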