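import Pool.Agent.TH917.Br.IncTc2

set_option autoImplicit false

namespace Pool.Agent.TH917.Br

open SimpleGraph

universe u v
variable {V : Type u} {W : Type v}

theorem weak_walk {G : SimpleGraph V} {H : SimpleGraph W} (φ : V → W)
    (hφ : ∀ a b, G.Adj a b → φ a = φ b ∨ H.Adj (φ a) (φ b)) {a b : V} (p : G.Walk a b) :
    ∃ q : H.Walk (φ a) (φ b), q.length ≤ p.length := by
  induction p with
  | nil => exact ⟨Walk.nil, le_rfl⟩
  | @cons a c b h p ih =>
    obtain ⟨q, hq⟩ := ih
    rcases hφ _ _ h with he | he
    · refine ⟨q.copy he.symm rfl, ?_⟩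
      rw [Walk.length_copy, Walk.length_cons]; omega
    · refine ⟨Walk.cons he q, ?_⟩
      rw [Walk.length_cons, Walk.length_cons]; omega

theorem weak_dist {G : SimpleGraph V} {H : SimpleGraph W} (φ : V → W)
    (hφ : ∀ a b, G.Adj a b → φ a = φ b ∨ H.Adj (φ a) (φ b)) {a b : V} (h : G.Reachable a b) :
    H.Reachable (φ a) (φ b) ∧ H.dist (φ a) (φ b) ≤ G.dist a b := by
  obtain ⟨p, hp⟩ := h.exists_walk_length_eq_dist
  obtain ⟨q, hq⟩ := weak_walk φ hφ p
  exact ⟨⟨q⟩, (dist_le q).trans (hq.trans hp.le)⟩

theorem IsoCyc.rotate {G : SimpleGraph V} {k : ℕ} {f : ℕ → V} (h : IsoCyc G k f) (hk : 4 ≤ k)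
    (s : ℕ) (hs : s < k) : IsoCyc G k (fun i => f ((i + s) % k)) := by
  have hd := fun i j hij hj => h.dist_eq (i := i) (j := j) hij hj
  obtain ⟨h0, hadj, -⟩ := h
  refine ⟨by simp, ?_, ?_⟩
  · intro i hi
    have key : ∀ a < k, G.Adj (f a) (f ((a + 1) % k)) := by
      intro a ha
      by_cases hak : a + 1 = k
      · rw [hak, Nat.mod_self, ← h0, ← hak]
        exact hadj a ha
      · rw [Nat.mod_eq_of_lt (by omega)]
        exact hadj a ha
    have := key ((i + s) % k) (Nat.mod_lt _ (by omega))
    rw [Nat.mod_add_mod] at this
    have e : i + 1 + s = i + s + 1 := by omega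
    simp only [e]
    exact this
  · intro i j hij hj
    simp only
    have red : ∀ t < k, (t + s) % k = if t + s < k then t + s else t + s - k := by
      intro t ht
      split_ifs with h1
      · exact Nat.mod_eq_of_lt h1
      · rw [Nat.mod_eq_sub_mod (by omega), Nat.mod_eq_of_lt (by omega)]
    rw [red i (by omega), red j hj]
    by_cases h1 : j + s < k
    · rw [if_pos h1, if_pos (by omega), hd _ _ (by omega) (by omega)]
      omega
    · rw [if_neg h1]
      by_cases h2 : i + s < k
      · rw [if_pos h2, SimpleGraph.dist_comm, hd _ _ (by omega) (by omega)]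
        omega
      · rw [if_neg h2, hd _ _ (by omega) (by omega)]
        omega

section dom
variable {G : SimpleGraph V} {A : Set V} {u w : V}

open Classical in
/-- the retraction sending the dominated vertex to its dominator -/
noncomputable def retr (A : Set V) (u w : V) (hw : w ∈ A) : ↥(insert u A) → ↥A :=
  fun x => if h : x.1 ∈ A then ⟨x.1, h⟩ else ⟨w, hw⟩

theorem retr_mem (hw : w ∈ A) (x : ↥(insert u A)) (h : x.1 ∈ A) : retr A u w hw x = ⟨x.1, h⟩ := by
  unfold retr; rw [dif_pos h]

theorem retr_not_mem (hw : w ∈ A) (x : ↥(insert u A)) (h : x.1 ∉ A) :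
    retr A u w hw x = ⟨w, hw⟩ := by
  unfold retr; rw [dif_neg h]

theorem retr_weak (hw : w ∈ A)
    (hdom : ∀ y ∈ A, G.Adj u y → y = w ∨ G.Adj w y) (a b : ↥(insert u A))
    (h : (G.induce (insert u A)).Adj a b) :
    retr A u w hw a = retr A u w hw b ∨
      (G.induce A).Adj (retr A u w hw a) (retr A u w hw b) := by
  have hab : G.Adj a.1 b.1 := h
  by_cases ha : a.1 ∈ A
  · by_cases hb : b.1 ∈ A
    · right
      rw [retr_mem hw a ha, retr_mem hw b hb]
      exact hab
    · have hbu : b.1 = u := by
        rcases b.2 with h | h
        · exact h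
        · exact absurd h hb
      rw [retr_mem hw a ha, retr_not_mem hw b hb]
      rw [hbu] at hab
      rcases hdom a.1 ha hab.symm with h | h
      · left; exact Subtype.ext h
      · right; exact h.symm
  · have hau : a.1 = u := by
      rcases a.2 with h | h
      · exact h
      · exact absurd h ha
    by_cases hb : b.1 ∈ A
    · rw [retr_not_mem hw a ha, retr_mem hw b hb]
      rw [hau] at hab
      rcases hdom b.1 hb hab with h | h
      · left; exact Subtype.ext h.symm
      · right; exact h
    · left
      rw [retr_not_mem hw a ha, retr_not_mem hw b hb]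

/-- inclusion -/
def incl (A : Set V) (u : V) : ↥A → ↥(insert u A) := fun a => ⟨a.1, Or.inr a.2⟩

theorem incl_weak (a b : ↥A) (h : (G.induce A).Adj a b) :
    incl A u a = incl A u b ∨ (G.induce (insert u A)).Adj (incl A u a) (incl A u b) :=
  Or.inr h

theorem dom_connected (hw : w ∈ A) (huw : G.Adj u w) (hcA : (G.induce A).Connected) :
    (G.induce (insert u A)).Connected := by
  have hb : ∀ x : ↥(insert u A), (G.induce (insert u A)).Reachable x (incl A u ⟨w, hw⟩) := by
    intro x
    rcases x.2 with h | h
    · have : (G.induce (insert u A)).Adj x (incl A u ⟨w, hw⟩) := by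
        change G.Adj x.1 w
        rw [h]; exact huw
      exact this.reachable
    · have := (weak_dist (incl A u) (incl_weak (G := G)) (hcA.preconnected ⟨x.1, h⟩ ⟨w, hw⟩)).1
      exact this
  have : Nonempty ↥(insert u A) := ⟨⟨u, Or.inl rfl⟩⟩
  exact Connected.mk (fun x y => (hb x).trans (hb y).symm)

theorem dom_step (hu : u ∉ A) (hw : w ∈ A) (huw : G.Adj u w)
    (hdom : ∀ y ∈ A, G.Adj u y → y = w ∨ G.Adj w y) (hN4 : N4 G) (hN5 : N5 G)
    (hcA : (G.induce A).Connected) (hA : NoIso (G.induce A)) :
    NoIso (G.induce (insert u A)) := by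
  have hcB := dom_connected hw huw hcA
  set ρ := retr A u w hw with hρ
  have hle : ∀ x y, (G.induce A).dist (ρ x) (ρ y) ≤ (G.induce (insert u A)).dist x y :=
    fun x y => (weak_dist ρ (retr_weak hw hdom) (hcB.preconnected x y)).2
  have hge : ∀ a b : ↥A, (G.induce (insert u A)).dist (incl A u a) (incl A u b) ≤
      (G.induce A).dist a b :=
    fun a b => (weak_dist (incl A u) (incl_weak (G := G)) (hcA.preconnected a b)).2
  have hρi : ∀ x : ↥(insert u A), x.1 ≠ u → incl A u (ρ x) = x := by
    intro x hx
    have hxA : x.1 ∈ A := by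
      rcases x.2 with h | h
      · exact absurd h hx
      · exact h
    rw [hρ, retr_mem hw x hxA]
    rfl
  have hρ1 : ∀ x : ↥(insert u A), x.1 ≠ u → (ρ x).1 = x.1 := by
    intro x hx
    have := congrArg Subtype.val (hρi x hx)
    exact this
  have heq : ∀ x y : ↥(insert u A), x.1 ≠ u → y.1 ≠ u →
      (G.induce A).dist (ρ x) (ρ y) = (G.induce (insert u A)).dist x y := by
    intro x y hx hy
    apply le_antisymm (hle x y)
    have := hge (ρ x) (ρ y)
    rwa [hρi x hx, hρi y hy] at this
  intro k f hk hf
  by_cases hall : ∀ i < k, (f i).1 ≠ u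
  · -- the cycle lives in A
    refine hA k (fun i => ρ (f i)) hk ⟨?_, ?_, ?_⟩
    · simp only [hf.1]
    · intro i hi
      have h1 : (f (i+1)).1 ≠ u := by
        by_cases hik : i + 1 = k
        · rw [hik, hf.1]; exact hall 0 (by omega)
        · exact hall (i+1) (by omega)
      change G.Adj (ρ (f i)).1 (ρ (f (i+1))).1
      rw [hρ1 _ (hall i hi), hρ1 _ h1]
      exact hf.2.1 i hi
    · intro i j hij hj
      rw [heq _ _ (hall i (by omega)) (hall j hj)]
      exact hf.2.2 i j hij hj
  · push Not at hall
    obtain ⟨s, hs, hsu⟩ := hall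
    obtain ⟨f', hf', hf0⟩ : ∃ f' : ℕ → ↥(insert u A), IsoCyc (G.induce (insert u A)) k f' ∧
        (f' 0).1 = u := by
      refine ⟨_, hf.rotate hk s hs, ?_⟩
      simp only [zero_add, Nat.mod_eq_of_lt hs]
      exact hsu
    clear hs hsu hf s f
    rename' f' => f, hf' => hf
    have hd := fun i j hij hj => hf.dist_eq (i := i) (j := j) hij hj
    have hadj : ∀ i < k, G.Adj (f i).1 (f (i+1)).1 := hf.2.1
    have hfk : f k = f 0 := hf.1
    have hne : ∀ i, 0 < i → i < k → (f i).1 ≠ u := by
      intro i hi hik heq
      have := hd 0 i (by omega) hik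
      rw [show f 0 = f i from Subtype.ext (by rw [hf0, heq]), dist_self] at this
      omega
    have hmem : ∀ i, 0 < i → i < k → (f i).1 ∈ A := by
      intro i hi hik
      rcases (f i).2 with h | h
      · exact absurd h (hne i hi hik)
      · exact h
    -- distances inside A
    have hdA : ∀ i j, 0 < i → i ≤ j → j < k →
        (G.induce A).dist (ρ (f i)) (ρ (f j)) = min (j-i) (k-(j-i)) := by
      intro i j hi hij hj
      rw [heq _ _ (hne i hi (by omega)) (hne j (by omega) hj), hd i j hij hj]
    have hρ0 : ρ (f 0) = ⟨w, hw⟩ := by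
      rw [hρ]; exact retr_not_mem hw _ (by rw [hf0]; exact hu)
    -- not adjacent facts
    have hnadj : ∀ i j, i ≤ j → j < k → 2 ≤ j - i → j - i + 2 ≤ k →
        ¬ G.Adj (f i).1 (f j).1 ∧ (f i).1 ≠ (f j).1 := by
      intro i j hij hj h1 h2
      have := hd i j hij hj
      constructor
      · intro h
        have h3 : (G.induce (insert u A)).Adj (f i) (f j) := h
        rw [dist_eq_one_iff_adj.mpr h3] at this
        omega
      · intro h
        rw [show f i = f j from Subtype.ext h, dist_self] at this
        omega
    have hwf : ∀ i, 0 < i → i < k → G.Adj u (f i).1 → (f i).1 = w ∨ G.Adj w (f i).1 :=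
      fun i hi hik h => hdom _ (hmem i hi hik) h
    have hu1 : G.Adj u (f 1).1 := by
      have := hadj 0 (by omega)
      rwa [hf0] at this
    have huk : G.Adj u (f (k-1)).1 := by
      have := hadj (k-1) (by omega)
      rw [show k - 1 + 1 = k by omega, hfk, hf0] at this
      exact this.symm
    have h1k := hnadj 1 (k-1) (by omega) (by omega) (by omega) (by omega)
    have hw1 : G.Adj w (f 1).1 := by
      rcases hwf 1 (by omega) (by omega) hu1 with h | h
      · exfalso
        rcases hwf (k-1) (by omega) (by omega) huk with h' | h'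
        · exact h1k.2 (h.trans h'.symm)
        · rw [← h] at h'; exact h1k.1 h'
      · exact h
    have hwk : G.Adj w (f (k-1)).1 := by
      rcases hwf (k-1) (by omega) (by omega) huk with h | h
      · exfalso
        rw [← h] at hw1; exact h1k.1 hw1.symm
      · exact h
    -- distance from u
    have hdu : ∀ i, 0 < i → i < k → min i (k - i) ≤ (G.induce A).dist ⟨w, hw⟩ (ρ (f i)) + 1 := by
      intro i hi hik
      have h1 := hd 0 i (by omega) hik
      have h2 := hcB.dist_triangle (u := f 0) (v := incl A u ⟨w, hw⟩) (w := f i)
      have h3 := hge ⟨w, hw⟩ (ρ (f i))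
      rw [hρi _ (hne i hi hik)] at h3
      have h4 : (G.induce (insert u A)).dist (f 0) (incl A u ⟨w, hw⟩) = 1 := by
        rw [dist_eq_one_iff_adj]
        change G.Adj (f 0).1 w
        rw [hf0]; exact huw
      simp only [Nat.sub_zero] at h1
      omega
    have hTI := tc_inc hcA hA
    rcases Nat.lt_or_ge k 6 with hk6 | hk6
    · -- k = 4, 5
      interval_cases k
      · have a := hnadj 0 2 (by omega) (by omega) (by omega) (by omega)
        have b := hnadj 1 3 (by omega) (by omega) (by omega) (by omega)
        have e3 := hadj 3 (by omega)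
        rw [show (3 + 1 : ℕ) = 4 by rfl, hfk] at e3
        exact hN4 _ _ _ _ (hadj 0 (by omega)) (hadj 1 (by omega)) (hadj 2 (by omega)) e3
          a.2 b.2 a.1 b.1
      · have a1 := hnadj 0 2 (by omega) (by omega) (by omega) (by omega)
        have a2 := hnadj 1 3 (by omega) (by omega) (by omega) (by omega)
        have a3 := hnadj 2 4 (by omega) (by omega) (by omega) (by omega)
        have a4 := hnadj 0 3 (by omega) (by omega) (by omega) (by omega)
        have a5 := hnadj 1 4 (by omega) (by omega) (by omega) (by omega)
        have e4 := hadj 4 (by omega)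
        rw [show (4 + 1 : ℕ) = 5 by rfl, hfk] at e4
        exact hN5 _ _ _ _ _ (hadj 0 (by omega)) (hadj 1 (by omega)) (hadj 2 (by omega))
          (hadj 3 (by omega)) e4
          a1.2 a2.2 a3.2 (Ne.symm a4.2) (Ne.symm a5.2) a1.1 a2.1 a3.1
          (fun h => a4.1 h.symm) (fun h => a5.1 h.symm)
    · -- k ≥ 6
      set g : ℕ → ↥A := fun i => ρ (f i) with hg
      have hgv : ∀ i, 0 < i → i < k → (g i).1 = (f i).1 := fun i hi hik => hρ1 _ (hne i hi hik)
      replace hdA : ∀ i j, 0 < i → i ≤ j → j < k →
        (G.induce A).dist (g i) (g j) = min (j-i) (k-(j-i)) := hdA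
      replace hdu : ∀ i, 0 < i → i < k →
        min i (k - i) ≤ (G.induce A).dist ⟨w, hw⟩ (g i) + 1 := hdu
      have hgadj : ∀ i, 0 < i → i + 1 < k → (G.induce A).Adj (g i) (g (i+1)) := by
        intro i hi hik
        change G.Adj (g i).1 (g (i+1)).1
        rw [hgv i hi (by omega), hgv (i+1) (by omega) hik]
        exact hadj i (by omega)
      have hwg1 : (G.induce A).Adj ⟨w, hw⟩ (g 1) := by
        change G.Adj w (g 1).1
        rw [hgv 1 (by omega) (by omega)]; exact hw1
      have hwgk : (G.induce A).Adj ⟨w, hw⟩ (g (k-1)) := by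
        change G.Adj w (g (k-1)).1
        rw [hgv (k-1) (by omega) (by omega)]; exact hwk
      have hg1k : g 1 ≠ g (k-1) ∧ ¬ (G.induce A).Adj (g 1) (g (k-1)) := by
        constructor
        · intro h
          apply h1k.2
          rw [← hgv 1 (by omega) (by omega), ← hgv (k-1) (by omega) (by omega), h]
        · intro h
          apply h1k.1
          have h' : G.Adj (g 1).1 (g (k-1)).1 := h
          rwa [hgv 1 (by omega) (by omega), hgv (k-1) (by omega) (by omega)] at h'
      rcases Nat.even_or_odd' k with ⟨m, hm | hm⟩
      · -- even case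
        have d1 := hdA 1 m (by omega) (by omega) (by omega)
        have d2 := hdA m (k-1) (by omega) (by omega) (by omega)
        have d3 := hdA 2 m (by omega) (by omega) (by omega)
        have d4 := hdA m (k-2) (by omega) (by omega) (by omega)
        have d5 := hdA 2 (k-2) (by omega) (by omega) (by omega)
        rw [SimpleGraph.dist_comm] at d1 d3
        have c1 := hdu m (by omega) (by omega)
        rw [SimpleGraph.dist_comm] at c1
        have c2 := adj_dist_le hcA hwg1 (g m)
        have hdw : (G.induce A).dist (g m) ⟨w, hw⟩ = m - 1 := by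
          by_contra hcon
          rcases (hTI (m-1)).2 (g m) ⟨w, hw⟩ (g 1) (g (k-1)) hwg1.symm hwgk.symm (by omega)
            (by omega) (by omega) with h | h
          · exact hg1k.1 h
          · exact hg1k.2 h
        obtain ⟨z, hz1, hzw, hz⟩ := (hTI (m-1)).1 (g m) (g 1) ⟨w, hw⟩ hwg1.symm (by omega) hdw
        obtain ⟨z', hz'1, hz'w, hz'⟩ := (hTI (m-1)).1 (g m) (g (k-1)) ⟨w, hw⟩ hwgk.symm
          (by omega) hdw
        have ak : (G.induce A).Adj (g (k-2)) (g (k-1)) := by
          have := hgadj (k-2) (by omega) (by omega)
          rwa [show k - 2 + 1 = k - 1 by omega] at this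
        have i1 := (hTI (m-2)).2 (g m) (g 1) z (g 2) hz1 (hgadj 1 (by omega) (by omega)).symm
          (by omega) (by omega) (by omega)
        have i2 := (hTI (m-2)).2 (g m) (g (k-1)) z' (g (k-2)) hz'1 ak
          (by omega) (by omega) (by omega)
        have i3 := (hTI (m-2)).2 (g m) ⟨w, hw⟩ z z' hzw hz'w
          (by omega) (by omega) (by omega)
        have le1 : ∀ {a b : ↥A}, (a = b ∨ (G.induce A).Adj a b) → (G.induce A).dist a b ≤ 1 := by
          intro a b h
          rcases h with h | h
          · rw [h, SimpleGraph.dist_self]; omega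
          · rw [dist_eq_one_iff_adj.mpr h]
        have s1 := le1 i1
        have s2 := le1 i2
        have s3 := le1 i3
        have s4 := hcA.dist_triangle (u := g 2) (v := z) (w := g (k-2))
        have s5 := hcA.dist_triangle (u := z) (v := z') (w := g (k-2))
        rw [SimpleGraph.dist_comm] at s1
        by_cases hk8 : 8 ≤ k
        · omega
        · -- k = 6
          have hk' : k = 6 := by omega
          subst hk'
          have hm3 : m = 3 := by omega
          subst hm3
          have nuz : ∀ y : ↥A, (G.induce A).dist (g 3) y + 1 = 2 → ¬ G.Adj u y.1 := by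
            intro y hy huy
            have h1 := hd 0 3 (by omega) (by omega)
            have h2 := hcB.dist_triangle (u := f 0) (v := incl A u y) (w := f 3)
            have h3 := hge y (g 3)
            rw [show g 3 = ρ (f 3) from rfl, hρi _ (hne 3 (by omega) (by omega)),
              show ρ (f 3) = g 3 from rfl, SimpleGraph.dist_comm (u := y)] at h3
            have h4 : (G.induce (insert u A)).dist (f 0) (incl A u y) = 1 := by
              rw [dist_eq_one_iff_adj]
              change G.Adj (f 0).1 y.1
              rw [hf0]; exact huy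
            omega
          have nz := nuz z hz
          have nz' := nuz z' hz'
          have hu1' : G.Adj u (g 1).1 := by rw [hgv 1 (by omega) (by omega)]; exact hu1
          have huk' : G.Adj u (g (6-1)).1 := by rw [hgv (6-1) (by omega) (by omega)]; exact huk
          have nez : ∀ y : ↥A, u ≠ y.1 := fun y h => hu (h ▸ y.2)
          have g1ne : (g 1).1 ≠ (g (6-1)).1 := fun h => hg1k.1 (Subtype.ext h)
          have hz1' : G.Adj z.1 (g 1).1 := hz1
          have hz'1' : G.Adj z'.1 (g (6-1)).1 := hz'1
          have g1na : ¬ G.Adj (g 1).1 (g (6-1)).1 := hg1k.2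
          rcases i3 with h | h
          · subst h
            exact hN4 (g 1).1 u (g (6-1)).1 z.1 hu1'.symm huk' hz'1'.symm hz1' g1ne (nez z)
              g1na nz
          · by_cases x1 : G.Adj z'.1 (g 1).1
            · exact hN4 (g 1).1 u (g (6-1)).1 z'.1 hu1'.symm huk' hz'1'.symm x1 g1ne (nez z')
                g1na nz'
            · by_cases x2 : G.Adj z.1 (g (6-1)).1
              · exact hN4 (g 1).1 u (g (6-1)).1 z.1 hu1'.symm huk' x2.symm hz1' g1ne (nez z)
                  g1na nz
              · have ne1 : (g (6-1)).1 ≠ z.1 := by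
                  intro hh
                  apply g1na
                  rw [hh]; exact hz1'.symm
                have ne2 : z'.1 ≠ (g 1).1 := by
                  intro hh
                  apply g1na
                  rw [← hh]; exact hz'1'
                exact hN5 (g 1).1 u (g (6-1)).1 z'.1 z.1 hu1'.symm huk' hz'1'.symm
                  (show G.Adj z'.1 z.1 from h.symm) hz1'
                  g1ne (nez z') ne1 ne2 (Ne.symm (nez z))
                  g1na nz' (fun hh => x2 hh.symm) x1 (fun hh => nz hh.symm)
      · -- odd case, k = 2m+1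
        -- the cycle with u replaced by w lies in A
        have hcyc : ¬ IsoCyc (G.induce A) k g := hA k g hk
        have hex : ∃ j, 0 < j ∧ j < k ∧ (G.induce A).dist ⟨w, hw⟩ (g j) < min j (k - j) := by
          by_contra hcon
          push Not at hcon
          apply hcyc
          refine ⟨by simp only [hg, hfk], ?_, ?_⟩
          · intro i hi
            rcases Nat.eq_zero_or_pos i with h0 | hpos
            · subst h0
              have : g 0 = ⟨w, hw⟩ := hρ0
              rw [this]; exact hwg1
            · by_cases hik : i + 1 < k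
              · exact hgadj i hpos hik
              · have hik' : i = k - 1 := by omega
                subst hik'
                have : g (k - 1 + 1) = ⟨w, hw⟩ := by
                  rw [show k - 1 + 1 = k by omega]
                  simp only [hg, hfk]; exact hρ0
                rw [this]; exact hwgk.symm
          · intro i j hij hj
            rcases Nat.eq_zero_or_pos i with h0 | hpos
            · subst h0
              have : g 0 = ⟨w, hw⟩ := hρ0
              rw [this]
              rcases Nat.eq_zero_or_pos j with hj0 | hjpos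
              · subst hj0; simp
              · have := hcon j hjpos hj
                simpa using this
            · rw [hdA i j hpos hij hj]
        obtain ⟨j, hj0, hjk, hj⟩ := hex
        rcases Nat.lt_or_ge m j with hjm | hjm
        · -- j ≥ m+1
          have t1 := hcA.dist_triangle (u := ⟨w, hw⟩) (v := g j) (w := g (m+1))
          have t2 := hdA (m+1) j (by omega) (by omega) hjk
          rw [SimpleGraph.dist_comm] at t2
          have t3 := hdA (m+1) (k-1) (by omega) (by omega) (by omega)
          have t4 := hdA 1 (m+1) (by omega) (by omega) (by omega)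
          have t5 := hdA 2 (m+1) (by omega) (by omega) (by omega)
          rw [SimpleGraph.dist_comm] at t4 t5
          have c2 := adj_dist_le hcA hwg1 (g (m+1))
          have c3 := adj_dist_le hcA hwg1.symm (g (m+1))
          rw [SimpleGraph.dist_comm] at t1
          -- at g 1 : level m from g (m+1); w and g 2 at level m - 1
          have hdw : (G.induce A).dist (g (m+1)) ⟨w, hw⟩ = m - 1 := by omega
          have i1 := (hTI (m-1)).2 (g (m+1)) (g 1) ⟨w, hw⟩ (g 2) hwg1
            (hgadj 1 (by omega) (by omega)).symm (by omega) (by omega) (by omega)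
          have t6 := hdA 2 (k-1) (by omega) (by omega) (by omega)
          have t7 := hcA.dist_triangle (u := g 2) (v := ⟨w, hw⟩) (w := g (k-1))
          rw [dist_eq_one_iff_adj.mpr hwgk] at t7
          rcases i1 with h | h
          · rw [h, SimpleGraph.dist_self] at t7; omega
          · rw [dist_eq_one_iff_adj.mpr h.symm] at t7; omega
        · -- j ≤ m
          have t1 := hcA.dist_triangle (u := ⟨w, hw⟩) (v := g j) (w := g m)
          have t2 := hdA j m (by omega) (by omega) (by omega)
          have t3 := hdA m (k-1) (by omega) (by omega) (by omega)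
          have t4 := hdA 1 m (by omega) (by omega) (by omega)
          have t5 := hdA m (k-2) (by omega) (by omega) (by omega)
          rw [SimpleGraph.dist_comm] at t4
          have c2 := adj_dist_le hcA hwgk (g m)
          have c3 := adj_dist_le hcA hwgk.symm (g m)
          rw [SimpleGraph.dist_comm] at t1
          have hdw : (G.induce A).dist (g m) ⟨w, hw⟩ = m - 1 := by omega
          have ak : (G.induce A).Adj (g (k-2)) (g (k-1)) := by
            have := hgadj (k-2) (by omega) (by omega)
            rwa [show k - 2 + 1 = k - 1 by omega] at this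
          have i1 := (hTI (m-1)).2 (g m) (g (k-1)) ⟨w, hw⟩ (g (k-2)) hwgk ak
            (by omega) (by omega) (by omega)
          have t6 := hdA 1 (k-2) (by omega) (by omega) (by omega)
          have t7 := hcA.dist_triangle (u := g 1) (v := ⟨w, hw⟩) (w := g (k-2))
          rw [dist_eq_one_iff_adj.mpr hwg1.symm] at t7
          rcases i1 with h | h
          · rw [h, SimpleGraph.dist_self] at t7; omega
          · rw [dist_eq_one_iff_adj.mpr h] at t7; omega

end dom

end Pool.Agent.TH917.Br
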