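import Pool.Agent.TH917.Br.Basic

set_option autoImplicit false

namespace Pool.Agent.TH917.Br

open SimpleGraph

universe u
variable {V : Type u}

/-- triangle condition at radius `n` -/
def TC (G : SimpleGraph V) (n : ℕ) : Prop :=
  ∀ v x y, G.Adj x y → G.dist v x = n → G.dist v y = n →
    ∃ z, G.Adj z x ∧ G.Adj z y ∧ G.dist v z + 1 = n

/-- the neighbours one step closer are pairwise adjacent -/
def INC (G : SimpleGraph V) (n : ℕ) : Prop :=
  ∀ v x u w, G.Adj u x → G.Adj w x → G.dist v x = n + 1 → G.dist v u = n → G.dist v w = n →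
    u = w ∨ G.Adj u w

/-- no induced four-cycle -/
def N4 (G : SimpleGraph V) : Prop :=
  ∀ p q r s, G.Adj p q → G.Adj q r → G.Adj r s → G.Adj s p → p ≠ r → q ≠ s →
    ¬ G.Adj p r → ¬ G.Adj q s → False

/-- no induced five-cycle -/
def N5 (G : SimpleGraph V) : Prop :=
  ∀ p q r s t, G.Adj p q → G.Adj q r → G.Adj r s → G.Adj s t → G.Adj t p →
    p ≠ r → q ≠ s → r ≠ t → s ≠ p → t ≠ q →
    ¬ G.Adj p r → ¬ G.Adj q s → ¬ G.Adj r t → ¬ G.Adj s p → ¬ G.Adj t q → False

theorem one_le_dist {G : SimpleGraph V} {a b : V} (h : G.Adj a b) : 1 ≤ G.dist a b := by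
  rw [dist_eq_one_iff_adj.mpr h]

theorem two_le_dist {G : SimpleGraph V} {a c b : V} (h1 : G.Adj a c) (h2 : G.Adj c b)
    (hne : a ≠ b) (hna : ¬ G.Adj a b) : 2 ≤ G.dist a b :=
  Reachable.one_lt_dist_of_ne_of_not_adj (h1.reachable.trans h2.reachable) hne hna

theorem n4_of_noIso {G : SimpleGraph V} (h : NoIso G) : N4 G := by
  intro p q r s h1 h2 h3 h4 n1 n2 a1 a2
  refine h 4 (fun i => if i = 0 then p else if i = 1 then q else if i = 2 then r
    else if i = 3 then s else p) le_rfl ⟨by simp, ?_, ?_⟩
  · intro i hi
    interval_cases i <;> simp [h1, h2, h3, h4]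
  · intro i j hij hj
    have d1 := one_le_dist h1
    have d2 := one_le_dist h2
    have d3 := one_le_dist h3
    have d4 := one_le_dist h4.symm
    have e1 := two_le_dist h1 h2 n1 a1
    have e2 := two_le_dist h2 h3 n2 a2
    interval_cases j <;> interval_cases i <;> simp <;> omega

theorem n5_of_noIso {G : SimpleGraph V} (h : NoIso G) : N5 G := by
  intro p q r s t h1 h2 h3 h4 h5 n1 n2 n3 n4 n5 a1 a2 a3 a4 a5
  refine h 5 (fun i => if i = 0 then p else if i = 1 then q else if i = 2 then r
    else if i = 3 then s else if i = 4 then t else p) (by omega) ⟨by simp, ?_, ?_⟩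
  · intro i hi
    interval_cases i <;> simp [h1, h2, h3, h4, h5]
  · intro i j hij hj
    have d1 := one_le_dist h1
    have d2 := one_le_dist h2
    have d3 := one_le_dist h3
    have d4 := one_le_dist h4
    have d5 := one_le_dist h5.symm
    have e1 := two_le_dist h1 h2 n1 a1
    have e2 := two_le_dist h2 h3 n2 a2
    have e3 := two_le_dist h3 h4 n3 a3
    have e4 := two_le_dist h5.symm h4.symm n4.symm (fun h => a4 h.symm)
    have e5 := two_le_dist h1.symm h5.symm n5.symm (fun h => a5 h.symm)
    interval_cases j <;> interval_cases i <;> simp <;> omega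

section A
variable {G : SimpleGraph V} (hc : G.Connected) {n : ℕ}
include hc

theorem adj_dist_le {a b : V} (h : G.Adj a b) (v : V) : G.dist v a ≤ G.dist v b + 1 := by
  have := hc.dist_triangle (u := v) (v := b) (w := a)
  rw [dist_eq_one_iff_adj.mpr h.symm] at this
  exact this

theorem ne_of_dist_ne {a b : V} {v : V} (h : G.dist v a ≠ G.dist v b) : a ≠ b := by
  rintro rfl; exact h rfl

theorem A_one (hA : ∀ k < n, TC G k) {v x y : V} (hxy : G.Adj x y)
    (hx : G.dist v x = n) (hy : G.dist v y = n)
    (hno : ∀ z, G.Adj z x → G.Adj z y → G.dist v z + 1 ≠ n)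
    {p : V} (hp : G.dist v p + G.dist p x = n) (hp1 : 1 ≤ G.dist v p) :
    G.dist p y = G.dist p x + 1 := by
  have t1 := hc.dist_triangle (u := v) (v := p) (w := y)
  have t2 := adj_dist_le hc hxy.symm p
  by_contra hcon
  have he : G.dist p y = G.dist p x := by omega
  obtain ⟨z, hzx, hzy, hz⟩ := hA (G.dist p x) (by omega) p x y hxy rfl he
  have t3 := hc.dist_triangle (u := v) (v := p) (w := z)
  have t4 := adj_dist_le hc hzx.symm v
  exact hno z hzx hzy (by omega)

/-- predecessor of the end of a geodesic towards y -/
theorem exists_next {q y : V} {m : ℕ} (h : G.dist q y = m + 1) :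
    ∃ q', G.Adj q' q ∧ G.dist q' y = m := by
  rw [dist_comm] at h
  obtain ⟨z, hz, hd⟩ := exists_pred h
  exact ⟨z, hz, by rw [dist_comm]; exact hd⟩

theorem A_main (hN4 : N4 G) (hA : ∀ k < n, TC G k) (hB : ∀ k < n, INC G k) {v x y : V}
    (hxy : G.Adj x y) (hx : G.dist v x = n) (hy : G.dist v y = n)
    (hno : ∀ z, G.Adj z x → G.Adj z y → G.dist v z + 1 ≠ n) :
    ∀ m p q, G.dist v p + G.dist p x = n → G.dist v q + G.dist q y = n → G.dist q y = m →
      m + 1 ≤ G.dist v p → G.dist p q = G.dist p x + 1 + m := by
  intro m
  induction m using Nat.strong_induction_on with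
  | _ m ih =>
    intro p q hp hq hqm hpm
    rcases Nat.eq_zero_or_pos m with hm0 | hmpos
    · subst hm0
      have hqy : q = y := hc.dist_eq_zero_iff.mp hqm
      subst hqy
      rw [A_one hc hA hxy hx hy hno hp (by omega)]
    · obtain ⟨m', rfl⟩ : ∃ m', m = m' + 1 := ⟨m - 1, by omega⟩
      obtain ⟨q', hqq', hq'm⟩ := exists_next hc hqm
      have hq'lev : G.dist v q' + G.dist q' y = n := by
        have t1 := adj_dist_le hc hqq' v
        have t2 := hc.dist_triangle (u := v) (v := q') (w := y)
        omega
      have e1 := ih m' (by omega) p q' hp hq'lev hq'm (by omega)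
      -- the further vertex
      have key : ∃ q'', G.Adj q'' q' ∧ G.dist p q'' = G.dist p x + m' ∧ ¬ G.Adj q q'' ∧ q ≠ q'' ∧
          ((m' = 0 ∧ q'' = x) ∨ (1 ≤ m' ∧ G.dist v q'' = G.dist v q + 2 ∧ G.dist q'' y + 1 = m')) := by
        rcases Nat.eq_zero_or_pos m' with h0 | hpos
        · subst h0
          have hq'y : q' = y := hc.dist_eq_zero_iff.mp hq'm
          subst hq'y
          have e2 := A_one hc hA hxy.symm hy hx (fun z a b => hno z b a) hq (by omega)
          refine ⟨x, hxy, by simp, ?_, ?_, Or.inl ⟨rfl, rfl⟩⟩
          · intro hadj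
            have := dist_eq_one_iff_adj.mpr hadj
            omega
          · rintro rfl
            simp at e2
        · obtain ⟨m'', rfl⟩ : ∃ m'', m' = m'' + 1 := ⟨m' - 1, by omega⟩
          obtain ⟨q'', hq''q', hq''m⟩ := exists_next hc hq'm
          have hq''lev : G.dist v q'' + G.dist q'' y = n := by
            have t1 := adj_dist_le hc hq''q' v
            have t2 := hc.dist_triangle (u := v) (v := q'') (w := y)
            omega
          have e2 := ih m'' (by omega) p q'' hp hq''lev hq''m (by omega)
          refine ⟨q'', hq''q', by omega, ?_, ?_, Or.inr ⟨by omega, by omega, by omega⟩⟩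
          · intro hadj
            have := adj_dist_le hc hadj.symm v
            omega
          · rintro rfl
            omega
      obtain ⟨q'', hq''q', e2, hnadj, hne, hcase⟩ := key
      have t1 := adj_dist_le hc hqq' p
      have t2 := adj_dist_le hc hqq'.symm p
      -- exclude smaller distances
      by_contra hcon
      have hd : G.dist p q = G.dist p x + m' ∨ G.dist p q = G.dist p x + m' + 1 := by omega
      rcases hd with hd | hd
      · rcases hB (G.dist p x + m') (by omega) p q' q q'' hqq'.symm hq''q' (by omega) hd e2 with h | h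
        · exact hne h
        · exact hnadj h
      · obtain ⟨z, hzq, hzq', hz⟩ := hA (G.dist p x + m' + 1) (by omega) p q q' hqq'.symm hd (by omega)
        have hzd : G.dist p z = G.dist p x + m' := by omega
        rcases hB (G.dist p x + m') (by omega) p q' z q'' hzq' hq''q' (by omega) hzd e2 with h | h
        · subst h
          exact hnadj hzq.symm
        · rcases hcase with ⟨hm', hq''x⟩ | ⟨hm', hl, hq''m⟩
          · subst hq''x
            subst hm'
            have hq'y : q' = y := hc.dist_eq_zero_iff.mp hq'm
            subst hq'y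
            -- z adjacent to q, y, x
            have l1 := hc.dist_triangle (u := v) (v := p) (w := z)
            have l2 := adj_dist_le hc h.symm v
            have l3 : G.dist v z + 1 ≠ n := hno z h hzq'
            have lz : G.dist v z = n := by omega
            have hpx : G.dist p q'' ≠ 0 := by
              intro h0
              have a1 : p = q'' := hc.dist_eq_zero_iff.mp h0
              have a2 : p = z := hc.dist_eq_zero_iff.mp (by omega)
              rw [← a1, ← a2] at h
              exact G.loopless.irrefl _ h
            obtain ⟨z', hz'x, hz'z, hz'⟩ := hA (G.dist p q'') (by omega) p q'' z h.symm rfl (by omega)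
            have l4 := hc.dist_triangle (u := v) (v := p) (w := z')
            have l5 := adj_dist_le hc hz'x.symm v
            have lz' : G.dist v z' + 1 = n := by omega
            rcases hB (n-1) (by omega) v z z' q hz'z hzq.symm (by omega) (by omega) (by omega) with g | g
            · subst g
              exact hnadj hz'x
            · refine hN4 q'' z' q q' hz'x.symm g hqq'.symm hxy.symm (Ne.symm hne) ?_ ?_ ?_
              · apply ne_of_dist_ne hc (v := v); omega
              · intro g'; exact hnadj g'.symm
              · intro g'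
                exact hno z' hz'x g' lz'
          · have l1 := adj_dist_le hc hzq v
            have l2 := adj_dist_le hc h.symm v
            have l3 := hc.dist_triangle (u := z) (v := q'') (w := y)
            have l4 : G.dist z q'' = 1 := dist_eq_one_iff_adj.mpr h
            have l5 := hc.dist_triangle (u := q) (v := z) (w := y)
            have l6 : G.dist q z = 1 := dist_eq_one_iff_adj.mpr hzq.symm
            have := ih m' (by omega) p z hp (by omega) (by omega) (by omega)
            omega

end A

end Pool.Agent.TH917.Br
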