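import Pool.Agent.TH917.Br.IncTc

set_option autoImplicit false

namespace Pool.Agent.TH917.Br

open SimpleGraph

universe u
variable {V : Type u}

section A
variable {G : SimpleGraph V} (hc : G.Connected) {n : ℕ}
include hc

theorem tc_step (hno' : NoIso G) (hA : ∀ k < n, TC G k) (hB : ∀ k < n, INC G k) : TC G n := by
  intro v x y hxy hx hy
  by_contra hcon
  push Not at hcon
  have hno : ∀ z, G.Adj z x → G.Adj z y → G.dist v z + 1 ≠ n := hcon
  have hN4 := n4_of_noIso hno'
  rcases Nat.eq_zero_or_pos n with h0 | hpos
  · subst h0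
    have a1 : v = x := hc.dist_eq_zero_iff.mp hx
    have a2 : v = y := hc.dist_eq_zero_iff.mp hy
    rw [← a1, ← a2] at hxy
    exact G.loopless.irrefl _ hxy
  rcases Nat.lt_or_ge n 2 with h1 | hn2
  · have : n = 1 := by omega
    subst this
    refine hno v (dist_eq_one_iff_adj.mp hx) (dist_eq_one_iff_adj.mp hy) ?_
    simp
  obtain ⟨P, hP0, hPn, hP⟩ := exists_geod hc n v x hx
  obtain ⟨Q, hQ0, hQn, hQ⟩ := exists_geod hc n v y hy
  have hPv : ∀ i ≤ n, G.dist v (P i) = i := by
    intro i hi
    have := hP 0 i (by omega) hi
    rwa [hP0] at this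
  have hQv : ∀ i ≤ n, G.dist v (Q i) = i := by
    intro i hi
    have := hQ 0 i (by omega) hi
    rwa [hQ0] at this
  have hPx : ∀ i ≤ n, G.dist (P i) x = n - i := by
    intro i hi
    have := hP i n hi le_rfl
    rwa [hPn] at this
  have hQy : ∀ i ≤ n, G.dist (Q i) y = n - i := by
    intro i hi
    have := hQ i n hi le_rfl
    rwa [hQn] at this
  have main : ∀ i j, i ≤ n → j ≤ n → n + 1 ≤ i + j →
      G.dist (P i) (Q j) = 2 * n + 1 - i - j := by
    intro i j hi hj hij
    have := A_main hc hN4 hA hB hxy hx hy hno (n - j) (P i) (Q j)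
      (by rw [hPv i hi, hPx i hi]; omega) (by rw [hQv j hj, hQy j hj]; omega) (hQy j hj)
      (by rw [hPv i hi]; omega)
    rw [this, hPx i hi]
    omega
  have sumn : ∀ i j, 1 ≤ i → 1 ≤ j → i + j = n → G.dist (P i) (Q j) = n := by
    intro i j hi hj hij
    have t0 := hc.dist_triangle (u := P i) (v := v) (w := Q j)
    rw [SimpleGraph.dist_comm (u := P i) (v := v), hPv i (by omega), hQv j (by omega)] at t0
    have t1 := main (i+1) j (by omega) (by omega) (by omega)
    have t2 := hc.dist_triangle (u := P (i+1)) (v := P i) (w := Q j)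
    have t3 := hP i (i+1) (by omega) (by omega)
    rw [SimpleGraph.dist_comm (u := P i)] at t3
    by_contra hne
    have hd : G.dist (P i) (Q j) = n - 1 := by omega
    have hadj1 : G.Adj (P i) (P (i+1)) := by
      rw [← dist_eq_one_iff_adj, hP i (i+1) (by omega) (by omega)]; omega
    rcases Nat.lt_or_ge (i+1) n with h2 | h2
    · have hadj2 : G.Adj (P (i+2)) (P (i+1)) := by
        rw [← dist_eq_one_iff_adj, dist_comm, hP (i+1) (i+2) (by omega) (by omega)]; omega
      have t4 := main (i+2) j (by omega) (by omega) (by omega)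
      rcases hB (n-1) (by omega) (Q j) (P (i+1)) (P i) (P (i+2)) hadj1 hadj2
        (by rw [SimpleGraph.dist_comm, t1]; omega) (by rw [SimpleGraph.dist_comm, hd]) (by rw [SimpleGraph.dist_comm, t4]; omega) with g | g
      · have := hP i (i+2) (by omega) (by omega)
        rw [← g, dist_self] at this
        omega
      · have := hP i (i+2) (by omega) (by omega)
        rw [dist_eq_one_iff_adj.mpr g] at this
        omega
    · have hi1 : i + 1 = n := by omega
      have hadj2 : G.Adj y (P (i+1)) := by rw [hi1, hPn]; exact hxy.symm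
      rcases hB (n-1) (by omega) (Q j) (P (i+1)) (P i) y hadj1 hadj2
        (by rw [SimpleGraph.dist_comm, t1]; omega) (by rw [SimpleGraph.dist_comm, hd]) (by rw [hQy j (by omega)]; omega) with g | g
      · have := A_one hc hA hxy hx hy hno (p := P i) (by rw [hPv i (by omega), hPx i (by omega)]; omega)
          (by rw [hPv i (by omega)]; omega)
        rw [← g, dist_self] at this
        omega
      · have := A_one hc hA hxy hx hy hno (p := P i) (by rw [hPv i (by omega), hPx i (by omega)]; omega)
          (by rw [hPv i (by omega)]; omega)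
        rw [dist_eq_one_iff_adj.mpr g, hPx i (by omega)] at this
        omega
  have low : ∀ i j, i + j ≤ n → G.dist (P i) (Q j) = i + j := by
    intro i j hij
    have t0 := hc.dist_triangle (u := P i) (v := v) (w := Q j)
    rw [SimpleGraph.dist_comm (u := P i) (v := v), hPv i (by omega), hQv j (by omega)] at t0
    rcases Nat.eq_zero_or_pos i with hi | hi
    · subst hi
      rw [hP0, hQv j (by omega)]; omega
    rcases Nat.eq_zero_or_pos j with hj | hj
    · subst hj
      rw [hQ0, dist_comm, hPv i (by omega)]; omega
    have t1 := sumn i (n - i) hi (by omega) (by omega)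
    have t2 := hc.dist_triangle (u := P i) (v := Q j) (w := Q (n-i))
    have t3 := hQ j (n-i) (by omega) (by omega)
    omega
  -- the isometric cycle
  refine hno' (2*n+1) (fun t => if t ≤ n then P t else Q (2*n+1-t)) (by omega) ⟨?_, ?_, ?_⟩
  · simp [hP0, hQ0, show ¬ (2 * n + 1 ≤ n) by omega]
  · intro i hi
    rw [← dist_eq_one_iff_adj]
    by_cases h1 : i + 1 ≤ n
    · simp only [show i ≤ n by omega, h1, if_true]
      rw [hP i (i+1) (by omega) (by omega)]; omega
    · by_cases h2 : i ≤ n
      · simp only [h2, h1, if_true, if_false]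
        have : i = n := by omega
        subst this
        rw [main i (2*i+1-(i+1)) le_rfl (by omega) (by omega)]
        omega
      · simp only [h2, h1, if_false]
        rw [SimpleGraph.dist_comm, hQ (2*n+1-(i+1)) (2*n+1-i) (by omega) (by omega)]
        omega
  · intro i j hij hj
    by_cases h1 : j ≤ n
    · simp only [show i ≤ n by omega, h1, if_true]
      rw [hP i j (by omega) (by omega)]; omega
    · by_cases h2 : i ≤ n
      · simp only [h2, h1, if_true, if_false]
        rcases Nat.lt_or_ge n (i + (2*n+1-j)) with h3 | h3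
        · rw [main i (2*n+1-j) h2 (by omega) (by omega)]
          omega
        · rw [low i (2*n+1-j) h3]
          omega
      · simp only [h2, h1, if_false]
        rw [SimpleGraph.dist_comm, hQ (2*n+1-j) (2*n+1-i) (by omega) (by omega)]
        omega

/-- forbidden configuration for the INC step -/
theorem B_Z (hN4 : N4 G) (hN5 : N5 G) (hA : ∀ k ≤ n, TC G k) (hB : ∀ k < n, INC G k)
    {v x u w z : V} (hux : G.Adj u x) (hwx : G.Adj w x) (hx : G.dist v x = n + 1)
    (hu : G.dist v u = n) (hw : G.dist v w = n) (hne : u ≠ w) (hna : ¬ G.Adj u w)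
    (hzu : G.Adj z u) (hzw : G.Adj z w) (hz : G.dist v z = n) : False := by
  obtain ⟨t, htu, htz, ht⟩ := hA n le_rfl v u z hzu.symm hu hz
  obtain ⟨s, hsz, hsw, hs⟩ := hA n le_rfl v z w hzw hz hw
  have hxt : ¬ G.Adj x t := fun h => by
    have := adj_dist_le hc h v; omega
  have hxs : ¬ G.Adj x s := fun h => by
    have := adj_dist_le hc h v; omega
  have nxt : x ≠ t := by apply ne_of_dist_ne hc (v := v); omega
  have nxs : x ≠ s := by apply ne_of_dist_ne hc (v := v); omega
  have nus : u ≠ s := by apply ne_of_dist_ne hc (v := v); omega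
  have nwt : w ≠ t := by apply ne_of_dist_ne hc (v := v); omega
  rcases hB (n-1) (by omega) v z t s htz hsz (by omega) (by omega) (by omega) with h | h
  · subst h
    exact hN4 u x w t hux hwx.symm hsw.symm htu hne nxt hna hxt
  · by_cases hus : G.Adj u s
    · exact hN4 u s w x hus hsw hwx hux.symm hne (Ne.symm nxs) hna (fun h => hxs h.symm)
    · by_cases htw : G.Adj t w
      · exact hN4 u t w x htu.symm htw hwx hux.symm hne (Ne.symm nxt) hna (fun h => hxt h.symm)
      · exact hN5 x u t s w hux.symm htu.symm h hsw hwx nxt nus (Ne.symm nwt) (Ne.symm nxs) (Ne.symm hne)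
          hxt hus htw (fun h => hxs h.symm) (fun h => hna h.symm)

theorem B_one (hN4 : N4 G) (hN5 : N5 G) (hA : ∀ k ≤ n, TC G k) (hB : ∀ k < n, INC G k)
    {v x u w : V} (hux : G.Adj u x) (hwx : G.Adj w x) (hx : G.dist v x = n + 1)
    (hu : G.dist v u = n) (hw : G.dist v w = n) (hne : u ≠ w) (hna : ¬ G.Adj u w)
    {p : V} (hp : G.dist v p + G.dist p u = n) (hp1 : 1 ≤ G.dist v p) :
    G.dist p w = G.dist p u + 2 := by
  have t1 := hc.dist_triangle (u := v) (v := p) (w := w)
  have t2 := adj_dist_le hc hwx p
  have t3 := adj_dist_le hc hux.symm p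
  have t4 := hc.dist_triangle (u := v) (v := p) (w := x)
  have hpx : G.dist p x = G.dist p u + 1 := by omega
  by_contra hcon
  have hd : G.dist p w = G.dist p u ∨ G.dist p w = G.dist p u + 1 := by omega
  rcases hd with hd | hd
  · rcases hB (G.dist p u) (by omega) p x u w hux hwx hpx rfl hd with h | h
    · exact hne h
    · exact hna h
  · obtain ⟨z, hzw, hzx, hz⟩ := hA (G.dist p u + 1) (by omega) p w x hwx hd hpx
    have l1 := hc.dist_triangle (u := v) (v := p) (w := z)
    have l2 := adj_dist_le hc hzx.symm v
    rcases hB (G.dist p u) (by omega) p x z u hzx hux hpx (by omega) rfl with h | h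
    · subst h; exact hna hzw
    · exact B_Z hc hN4 hN5 hA hB hux hwx hx hu hw hne hna h hzw (by omega)

theorem B_main (hN4 : N4 G) (hN5 : N5 G) (hA : ∀ k ≤ n, TC G k) (hB : ∀ k < n, INC G k)
    {v x u w : V} (hux : G.Adj u x) (hwx : G.Adj w x) (hx : G.dist v x = n + 1)
    (hu : G.dist v u = n) (hw : G.dist v w = n) (hne : u ≠ w) (hna : ¬ G.Adj u w) :
    ∀ m p q, G.dist v p + G.dist p u = n → G.dist v q + G.dist q w = n → G.dist q w = m →
      m + 1 ≤ G.dist v p → G.dist p q = G.dist p u + 2 + m := by
  intro m
  induction m using Nat.strong_induction_on with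
  | _ m ih =>
    intro p q hp hq hqm hpm
    rcases Nat.eq_zero_or_pos m with hm0 | hmpos
    · subst hm0
      have hqw : q = w := hc.dist_eq_zero_iff.mp hqm
      subst hqw
      rw [B_one hc hN4 hN5 hA hB hux hwx hx hu hw hne hna hp (by omega)]
    · obtain ⟨m', rfl⟩ : ∃ m', m = m' + 1 := ⟨m - 1, by omega⟩
      obtain ⟨q', hqq', hq'm⟩ := exists_next hc hqm
      have hq'lev : G.dist v q' + G.dist q' w = n := by
        have t1 := adj_dist_le hc hqq' v
        have t2 := hc.dist_triangle (u := v) (v := q') (w := w)
        omega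
      have e1 := ih m' (by omega) p q' hp hq'lev hq'm (by omega)
      have key : ∃ q'', G.Adj q'' q' ∧ G.dist p q'' = G.dist p u + m' + 1 ∧ ¬ G.Adj q q'' ∧ q ≠ q'' ∧
          G.dist v q'' = G.dist v q + 2 ∧
          ((m' = 0 ∧ q'' = x) ∨ (1 ≤ m' ∧ G.dist q'' w + 1 = m')) := by
        rcases Nat.eq_zero_or_pos m' with h0 | hpos
        · subst h0
          have hq'y : q' = w := hc.dist_eq_zero_iff.mp hq'm
          subst hq'y
          have t3 := adj_dist_le hc hux.symm p
          have t4 := hc.dist_triangle (u := v) (v := p) (w := x)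
          refine ⟨x, hwx.symm, by omega, ?_, ?_, by omega, Or.inl ⟨rfl, rfl⟩⟩
          · intro hadj
            have := adj_dist_le hc hadj.symm v
            omega
          · apply ne_of_dist_ne hc (v := v); omega
        · obtain ⟨m'', rfl⟩ : ∃ m'', m' = m'' + 1 := ⟨m' - 1, by omega⟩
          obtain ⟨q'', hq''q', hq''m⟩ := exists_next hc hq'm
          have hq''lev : G.dist v q'' + G.dist q'' w = n := by
            have t1 := adj_dist_le hc hq''q' v
            have t2 := hc.dist_triangle (u := v) (v := q'') (w := w)
            omega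
          have e2 := ih m'' (by omega) p q'' hp hq''lev hq''m (by omega)
          refine ⟨q'', hq''q', by omega, ?_, ?_, by omega, Or.inr ⟨by omega, by omega⟩⟩
          · intro hadj
            have := adj_dist_le hc hadj.symm v
            omega
          · apply ne_of_dist_ne hc (v := v); omega
      obtain ⟨q'', hq''q', e2, hnadj, hneq, hlev, hcase⟩ := key
      have t1 := adj_dist_le hc hqq' p
      have t2 := adj_dist_le hc hqq'.symm p
      by_contra hcon
      have hd : G.dist p q = G.dist p u + m' + 1 ∨ G.dist p q = G.dist p u + m' + 2 := by omega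
      rcases hd with hd | hd
      · rcases hB (G.dist p u + m' + 1) (by omega) p q' q q'' hqq'.symm hq''q' (by omega) hd e2 with h | h
        · exact hneq h
        · exact hnadj h
      · obtain ⟨z, hzq, hzq', hz⟩ := hA (G.dist p u + m' + 2) (by omega) p q q' hqq'.symm hd (by omega)
        have hzd : G.dist p z = G.dist p u + m' + 1 := by omega
        rcases hB (G.dist p u + m' + 1) (by omega) p q' z q'' hzq' hq''q' (by omega) hzd e2 with h | h
        · subst h
          exact hnadj hzq.symm
        · have l1 := adj_dist_le hc hzq v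
          have l2 := adj_dist_le hc h.symm v
          have lz : G.dist v z = G.dist v q + 1 := by omega
          rcases hcase with ⟨hm', hq''x⟩ | ⟨hm', hq''m⟩
          · subst hq''x
            subst hm'
            have hq'w : q' = w := hc.dist_eq_zero_iff.mp hq'm
            subst hq'w
            have lz' : G.dist v z = n := by omega
            by_cases huz : u = z
            · subst huz
              exact hna hzq'
            · by_cases hauz : G.Adj u z
              · exact B_Z hc hN4 hN5 hA hB hux hwx hx hu hw hne hna hauz.symm hzq' lz'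
              · have := B_one hc hN4 hN5 hA hB hux h hx hu lz' huz hauz hp (by omega)
                omega
          · have l3 := hc.dist_triangle (u := z) (v := q'') (w := w)
            have l4 : G.dist z q'' = 1 := dist_eq_one_iff_adj.mpr h
            have l5 := hc.dist_triangle (u := q) (v := z) (w := w)
            have l6 : G.dist q z = 1 := dist_eq_one_iff_adj.mpr hzq.symm
            have := ih m' (by omega) p z hp (by omega) (by omega) (by omega)
            omega

theorem inc_step (hno' : NoIso G) (hA : ∀ k ≤ n, TC G k) (hB : ∀ k < n, INC G k) : INC G n := by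
  intro v x u w hux hwx hx hu hw
  by_contra hcon
  push Not at hcon
  obtain ⟨hne, hna⟩ := hcon
  have hN4 := n4_of_noIso hno'
  have hN5 := n5_of_noIso hno'
  rcases Nat.eq_zero_or_pos n with h0 | hpos
  · subst h0
    have a1 : v = u := hc.dist_eq_zero_iff.mp hu
    have a2 : v = w := hc.dist_eq_zero_iff.mp hw
    exact hne (a1.symm.trans a2)
  obtain ⟨P, hP0, hPn, hP⟩ := exists_geod hc n v u hu
  obtain ⟨Q, hQ0, hQn, hQ⟩ := exists_geod hc n v w hw
  have hPv : ∀ i ≤ n, G.dist v (P i) = i := by
    intro i hi
    have := hP 0 i (by omega) hi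
    rwa [hP0] at this
  have hQv : ∀ i ≤ n, G.dist v (Q i) = i := by
    intro i hi
    have := hQ 0 i (by omega) hi
    rwa [hQ0] at this
  have hPu : ∀ i ≤ n, G.dist (P i) u = n - i := by
    intro i hi
    have := hP i n hi le_rfl
    rwa [hPn] at this
  have hQw : ∀ i ≤ n, G.dist (Q i) w = n - i := by
    intro i hi
    have := hQ i n hi le_rfl
    rwa [hQn] at this
  have hPx : ∀ i ≤ n, G.dist (P i) x = n + 1 - i := by
    intro i hi
    have t3 := adj_dist_le hc hux.symm (P i)
    have t4 := hc.dist_triangle (u := v) (v := P i) (w := x)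
    have := hPu i hi
    have := hPv i hi
    omega
  have hQx : ∀ i ≤ n, G.dist (Q i) x = n + 1 - i := by
    intro i hi
    have t3 := adj_dist_le hc hwx.symm (Q i)
    have t4 := hc.dist_triangle (u := v) (v := Q i) (w := x)
    have := hQw i hi
    have := hQv i hi
    omega
  have main : ∀ i j, i ≤ n → j ≤ n → n + 1 ≤ i + j →
      G.dist (P i) (Q j) = 2 * n + 2 - i - j := by
    intro i j hi hj hij
    have := B_main hc hN4 hN5 hA hB hux hwx hx hu hw hne hna (n - j) (P i) (Q j)
      (by rw [hPv i hi, hPu i hi]; omega) (by rw [hQv j hj, hQw j hj]; omega) (hQw j hj)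
      (by rw [hPv i hi]; omega)
    rw [this, hPu i hi]
    omega
  have low : ∀ i j, i + j ≤ n → G.dist (P i) (Q j) = i + j := by
    intro i j hij
    have t0 := hc.dist_triangle (u := P i) (v := v) (w := Q j)
    rw [SimpleGraph.dist_comm (u := P i) (v := v), hPv i (by omega), hQv j (by omega)] at t0
    rcases Nat.eq_zero_or_pos i with hi | hi
    · subst hi
      rw [hP0, hQv j (by omega)]; omega
    rcases Nat.eq_zero_or_pos j with hj | hj
    · subst hj
      rw [hQ0, dist_comm, hPv i (by omega)]; omega
    have t1 := main (n+1-j) j (by omega) (by omega) (by omega)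
    have t2 := hc.dist_triangle (u := P (n+1-j)) (v := P i) (w := Q j)
    have t3 := hP i (n+1-j) (by omega) (by omega)
    rw [SimpleGraph.dist_comm (u := P i)] at t3
    omega
  refine hno' (2*n+2) (fun t => if t ≤ n then P t else if t = n + 1 then x else Q (2*n+2-t))
    (by omega) ⟨?_, ?_, ?_⟩
  · simp [hP0, hQ0, show ¬ (2 * n + 2 ≤ n) by omega, show ¬ (2 * n + 1 = n) by omega]
  · intro i hi
    rw [← dist_eq_one_iff_adj]
    by_cases h1 : i + 1 ≤ n
    · simp only [show i ≤ n by omega, h1, if_true]
      rw [hP i (i+1) (by omega) (by omega)]; omega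
    · by_cases h2 : i ≤ n
      · have : i = n := by omega
        subst this
        simp only [le_refl, h1, if_true, if_false]
        rw [hPx i le_rfl]; omega
      · by_cases h3 : i = n + 1
        · subst h3
          simp only [show ¬ (n + 1 ≤ n) by omega, show ¬ (n + 1 + 1 ≤ n) by omega,
            show ¬ (n + 1 + 1 = n + 1) by omega, if_true, if_false]
          rw [SimpleGraph.dist_comm, hQx _ (by omega)]; omega
        · simp only [h2, h1, h3, show ¬ (i + 1 = n + 1) by omega, if_false]
          rw [SimpleGraph.dist_comm, hQ (2*n+2-(i+1)) (2*n+2-i) (by omega) (by omega)]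
          omega
  · intro i j hij hj
    by_cases h1 : j ≤ n
    · simp only [show i ≤ n by omega, h1, if_true]
      rw [hP i j (by omega) (by omega)]; omega
    · by_cases hj1 : j = n + 1
      · by_cases h2 : i ≤ n
        · simp only [h2, hj1, show ¬ (n + 1 ≤ n) by omega, if_true, if_false]
          rw [hPx i h2]; omega
        · have : i = j := by omega
          subst this
          simp only [hj1, if_true]
          omega
      · by_cases h2 : i ≤ n
        · simp only [h2, h1, hj1, if_true, if_false]
          rcases Nat.lt_or_ge n (i + (2*n+2-j)) with h3 | h3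
          · rw [main i (2*n+2-j) h2 (by omega) (by omega)]
            omega
          · rw [low i (2*n+2-j) h3]
            omega
        · by_cases h3 : i = n + 1
          · simp only [h3, hj1, h1, show ¬ (n + 1 ≤ n) by omega, if_true, if_false]
            rw [SimpleGraph.dist_comm, hQx _ (by omega)]; omega
          · simp only [h2, h1, h3, hj1, if_false]
            rw [SimpleGraph.dist_comm, hQ (2*n+2-j) (2*n+2-i) (by omega) (by omega)]
            omega

end A

theorem tc_inc {G : SimpleGraph V} (hc : G.Connected) (hno : NoIso G) :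
    ∀ n, TC G n ∧ INC G n := by
  intro n
  induction n using Nat.strong_induction_on with
  | _ n ih =>
    have hA : TC G n := tc_step hc hno (fun k hk => (ih k hk).1) (fun k hk => (ih k hk).2)
    refine ⟨hA, inc_step hc hno (fun k hk => ?_) (fun k hk => (ih k hk).2)⟩
    rcases Nat.lt_or_ge k n with h | h
    · exact (ih k h).1
    · have : k = n := by omega
      subst this; exact hA

end Pool.Agent.TH917.Br
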